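import Pool.Agent.X256.Arc.Bound

/-!
# The coefficients of the D'Arcais polynomials are not log-concave
-/

set_option autoImplicit false

namespace Pool.Agent.X256.Arc

open Polynomial Finset

section
variable (P : ℕ → Polynomial ℚ) (h0 : P 0 = 1)
  (hrec : ∀ n : ℕ, 1 ≤ n → (n : Polynomial ℚ) * P n = X * ∑ k ∈ Icc 1 n,
    ((ArithmeticFunction.sigma 1 k : ℕ) : Polynomial ℚ) * P (n - k))

include h0 hrec

/-- the real-valued coefficients -/
theorem a1_eq (n : ℕ) (hn : 1 ≤ n) : (((P n).coeff 1 : ℚ) : ℝ) = s n := by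
  rw [coeff_one' P h0 hrec n hn, ← sigma_div n hn]
  push_cast
  rfl

theorem le_sigma (k : ℕ) (hk : 1 ≤ k) : (k : ℚ) ≤ (ArithmeticFunction.sigma 1 k : ℕ) := by
  rw [ArithmeticFunction.sigma_one_apply]
  have : k ≤ ∑ d ∈ k.divisors, d :=
    Finset.single_le_sum (f := fun d => d) (fun _ _ => Nat.zero_le _)
      (Nat.mem_divisors.mpr ⟨dvd_refl k, by omega⟩)
  exact_mod_cast this

theorem one_le_a1 (n : ℕ) (hn : 1 ≤ n) : 1 ≤ (P n).coeff 1 := by
  rw [coeff_one' P h0 hrec n hn, le_div_iff₀ (by positivity), one_mul]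
  exact le_sigma P h0 hrec n hn

theorem a1_zero : (P 0).coeff 1 = 0 := by
  rw [h0, Polynomial.coeff_one]; simp

theorem a2_zero : (P 0).coeff 2 = 0 := by
  rw [h0, Polynomial.coeff_one]; simp

omit h0 hrec in
theorem sum_id (n : ℕ) (hn : 1 ≤ n) : ∑ k ∈ Icc 1 n, (if k = n then 0 else (k : ℚ)) =
    n * (n - 1) / 2 := by
  obtain ⟨m, rfl⟩ : ∃ m, n = m + 1 := ⟨n - 1, by omega⟩
  rw [Finset.sum_Icc_succ_top (by omega)]
  have h1 : ∑ k ∈ Icc 1 m, (if k = m + 1 then 0 else (k : ℚ)) = ∑ k ∈ Icc 1 m, (k : ℚ) :=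
    Finset.sum_congr rfl fun k hk => by
      simp only [mem_Icc] at hk
      rw [if_neg (by omega)]
  rw [h1]
  have h2 : ∀ m : ℕ, ∑ k ∈ Icc 1 m, (k : ℚ) = m * (m + 1) / 2 := by
    intro m
    induction m with
    | zero => simp
    | succ m ih => rw [Finset.sum_Icc_succ_top (by omega), ih]; push_cast; ring
  rw [h2]
  simp
  ring

theorem a2_ge (n : ℕ) (hn : 1 ≤ n) : ((n : ℚ) - 1) / 2 ≤ (P n).coeff 2 := by
  have h1 := coeff_rec P hrec n 1 hn
  have h2 : ∑ k ∈ Icc 1 n, (if k = n then 0 else (k : ℚ)) ≤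
      ∑ k ∈ Icc 1 n, (ArithmeticFunction.sigma 1 k : ℚ) * (P (n - k)).coeff 1 := by
    refine Finset.sum_le_sum fun k hk => ?_
    simp only [mem_Icc] at hk
    split_ifs with hkn
    · rw [hkn, Nat.sub_self, a1_zero P h0 hrec, mul_zero]
    · have h3 := one_le_a1 P h0 hrec (n - k) (by omega)
      have h4 := le_sigma P h0 hrec k hk.1
      have h5 : (0 : ℚ) ≤ k := by positivity
      nlinarith
  rw [sum_id n hn, ← h1] at h2
  have hn0 : (0 : ℚ) < n := by positivity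
  have h3 : (n : ℚ) * (((n : ℚ) - 1) / 2) ≤ n * (P n).coeff 2 := by linarith
  exact le_of_mul_le_mul_left h3 hn0

theorem a2_nonneg (n : ℕ) : 0 ≤ (P n).coeff 2 := by
  rcases Nat.eq_zero_or_pos n with h | h
  · rw [h, a2_zero P h0 hrec]
  · have h1 := a2_ge P h0 hrec n h
    have h2 : (1 : ℚ) ≤ n := by exact_mod_cast h
    linarith

omit h0 hrec in
theorem sum_id2 (n : ℕ) (hn : 1 ≤ n) :
    ∑ k ∈ Icc 1 n, (if k = n then 0 else (k : ℚ) * (((n : ℚ) - k - 1) / 2)) =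
    n * ((n - 1) * (n - 2) / 12) := by
  obtain ⟨m, rfl⟩ : ∃ m, n = m + 1 := ⟨n - 1, by omega⟩
  rw [Finset.sum_Icc_succ_top (by omega)]
  have h1 : ∑ k ∈ Icc 1 m, (if k = m + 1 then 0 else
      (k : ℚ) * ((((m + 1 : ℕ) : ℚ) - k - 1) / 2)) =
      ∑ k ∈ Icc 1 m, (k : ℚ) * (((m : ℚ) - k) / 2) :=
    Finset.sum_congr rfl fun k hk => by
      simp only [mem_Icc] at hk
      rw [if_neg (by omega)]
      push_cast
      ring
  rw [h1]
  have h2 : ∀ (m : ℕ) (c : ℚ), ∑ k ∈ Icc 1 m, (k : ℚ) * ((c - k) / 2) =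
      c * (m * (m + 1) / 4) - m * (m + 1) * (2 * m + 1) / 12 := by
    intro m c
    induction m with
    | zero => simp
    | succ m ih => rw [Finset.sum_Icc_succ_top (by omega), ih]; push_cast; ring
  rw [h2]
  simp
  ring

theorem a3_ge (n : ℕ) (hn : 1 ≤ n) : ((n : ℚ) - 1) * (n - 2) / 12 ≤ (P n).coeff 3 := by
  have h1 := coeff_rec P hrec n 2 hn
  have h2 : ∑ k ∈ Icc 1 n, (if k = n then 0 else (k : ℚ) * (((n : ℚ) - k - 1) / 2)) ≤
      ∑ k ∈ Icc 1 n, (ArithmeticFunction.sigma 1 k : ℚ) * (P (n - k)).coeff 2 := by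
    refine Finset.sum_le_sum fun k hk => ?_
    simp only [mem_Icc] at hk
    split_ifs with hkn
    · rw [hkn, Nat.sub_self, a2_zero P h0 hrec, mul_zero]
    · have h3 := a2_ge P h0 hrec (n - k) (by omega)
      have h4 := le_sigma P h0 hrec k hk.1
      have h5 : (0 : ℚ) ≤ k := by positivity
      have h6 := a2_nonneg P h0 hrec (n - k)
      have h7 : ((n - k : ℕ) : ℚ) = (n : ℚ) - k := by
        rw [Nat.cast_sub hk.2]
      rw [h7] at h3
      calc (k : ℚ) * (((n : ℚ) - k - 1) / 2) ≤ k * (P (n - k)).coeff 2 :=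
            mul_le_mul_of_nonneg_left h3 h5
        _ ≤ _ := mul_le_mul_of_nonneg_right h4 h6
  rw [sum_id2 n hn, ← h1] at h2
  have hn0 : (0 : ℚ) < n := by positivity
  exact le_of_mul_le_mul_left h2 hn0

theorem a2_le (n : ℕ) (hn : 1 ≤ n) : (((P n).coeff 2 : ℚ) : ℝ) ≤ 9 * n := by
  have h1 := coeff_rec P hrec n 1 hn
  have h2 : (n : ℝ) * (((P n).coeff 2 : ℚ) : ℝ) =
      ∑ k ∈ Icc 1 n, ((ArithmeticFunction.sigma 1 k : ℕ) : ℝ) *
        (((P (n - k)).coeff 1 : ℚ) : ℝ) := by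
    have := congrArg (fun q : ℚ => (q : ℝ)) h1
    push_cast at this
    exact this
  have hs0 : ∀ k, 0 ≤ s k := fun k => Finset.sum_nonneg fun d _ => by positivity
  have hs00 : s 0 = 0 := by simp [s]
  have h3 : ∀ k ∈ Icc 1 n, ((ArithmeticFunction.sigma 1 k : ℕ) : ℝ) *
        (((P (n - k)).coeff 1 : ℚ) : ℝ) ≤ n * (s k * s (n - k)) := by
    intro k hk
    simp only [mem_Icc] at hk
    have e1 : (((P (n - k)).coeff 1 : ℚ) : ℝ) = s (n - k) := by
      rcases Nat.eq_zero_or_pos (n - k) with h | h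
      · rw [h, a1_zero P h0 hrec, hs00]; simp
      · exact a1_eq P h0 hrec (n - k) h
    have e2 : ((ArithmeticFunction.sigma 1 k : ℕ) : ℝ) = k * s k := by
      rw [← sigma_div k hk.1]
      have : (k : ℝ) ≠ 0 := by
        have := hk.1
        positivity
      field_simp
    rw [e1, e2, mul_assoc]
    exact mul_le_mul_of_nonneg_right (by exact_mod_cast hk.2) (mul_nonneg (hs0 _) (hs0 _))
  have h4 : ∑ k ∈ Icc 1 n, s k * s (n - k) ≤ ∑ k ∈ Ioc 0 n, s k ^ 2 := by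
    have h5 : ∀ k ∈ Icc 1 n, s k * s (n - k) ≤ (s k ^ 2 + s (n - k) ^ 2) / 2 := by
      intro k _
      nlinarith [sq_nonneg (s k - s (n - k))]
    have h6 : ∑ k ∈ Icc 1 n, s (n - k) ^ 2 ≤ ∑ k ∈ Ioc 0 n, s k ^ 2 := by
      have h7 : ∑ k ∈ Icc 1 n, s (n - k) ^ 2 = ∑ k ∈ range n, s k ^ 2 := by
        refine Finset.sum_nbij' (fun k => n - k) (fun k => n - k) ?_ ?_ ?_ ?_ ?_
        · intro k hk; simp only [mem_Icc] at hk; simp only [mem_range]; omega
        · intro k hk; simp only [mem_range] at hk; simp only [mem_Icc]; omega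
        · intro k hk; simp only [mem_Icc] at hk; omega
        · intro k hk; simp only [mem_range] at hk; omega
        · intro k _; rfl
      rw [h7]
      obtain ⟨m, rfl⟩ : ∃ m, n = m + 1 := ⟨n - 1, by omega⟩
      rw [Finset.sum_range_succ', hs00]
      have h8 : ∑ k ∈ range m, s (k + 1) ^ 2 = ∑ k ∈ Ioc 0 m, s k ^ 2 := by
        refine Finset.sum_nbij' (fun k => k + 1) (fun k => k - 1) ?_ ?_ ?_ ?_ ?_
        · intro k hk; simp only [mem_range] at hk; simp only [mem_Ioc]; omega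
        · intro k hk; simp only [mem_Ioc] at hk; simp only [mem_range]; omega
        · intro k hk; simp
        · intro k hk; simp only [mem_Ioc] at hk; omega
        · intro k _; rfl
      rw [h8]
      have h9 : ∑ k ∈ Ioc 0 m, s k ^ 2 ≤ ∑ k ∈ Ioc 0 (m + 1), s k ^ 2 := by
        refine Finset.sum_le_sum_of_subset_of_nonneg ?_ (fun _ _ _ => sq_nonneg _)
        intro k hk
        simp only [mem_Ioc] at hk ⊢
        omega
      linarith
    have h10 : ∑ k ∈ Icc 1 n, s k ^ 2 = ∑ k ∈ Ioc 0 n, s k ^ 2 := by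
      refine Finset.sum_congr ?_ fun _ _ => rfl
      ext k
      simp only [mem_Icc, mem_Ioc]
      omega
    calc ∑ k ∈ Icc 1 n, s k * s (n - k) ≤ ∑ k ∈ Icc 1 n, (s k ^ 2 + s (n - k) ^ 2) / 2 :=
          Finset.sum_le_sum h5
      _ = (∑ k ∈ Icc 1 n, s k ^ 2 + ∑ k ∈ Icc 1 n, s (n - k) ^ 2) / 2 := by
          rw [← Finset.sum_div, Finset.sum_add_distrib]
      _ ≤ _ := by rw [h10]; linarith
  have h11 := sum_s_sq n
  have h12 : (n : ℝ) * (((P n).coeff 2 : ℚ) : ℝ) ≤ n * (9 * n) := by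
    rw [h2]
    refine (Finset.sum_le_sum h3).trans ?_
    rw [← Finset.mul_sum]
    exact mul_le_mul_of_nonneg_left (h4.trans h11) (by positivity)
  exact le_of_mul_le_mul_left h12 (by positivity)

/-- Log-concavity fails at `k = 2` for some `n`. -/
theorem fails : ∃ n : ℕ, (P n).coeff 2 ^ 2 < (P n).coeff 1 * (P n).coeff 3 := by
  obtain ⟨N, hN⟩ := (((Real.tendsto_sum_range_one_div_nat_succ_atTop).eventually_gt_atTop
    (1944 : ℝ)).and (Filter.eventually_ge_atTop 3)).exists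
  set n := N.factorial with hn
  have hn6 : 6 ≤ n := by
    have : Nat.factorial 3 ≤ Nat.factorial N := Nat.factorial_le hN.2
    simpa [Nat.factorial] using this
  have hs : 1944 < s n := lt_of_lt_of_le hN.1 (s_factorial N)
  refine ⟨n, ?_⟩
  have h1 := a1_eq P h0 hrec n (by omega)
  have h2 := a2_le P h0 hrec n (by omega)
  have h3 := a3_ge P h0 hrec n (by omega)
  have h20 := a2_nonneg P h0 hrec n
  have h3' : ((n : ℝ) - 1) * (n - 2) / 12 ≤ (((P n).coeff 3 : ℚ) : ℝ) := by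
    have : (((((n : ℚ) - 1) * (n - 2) / 12 : ℚ)) : ℝ) ≤ (((P n).coeff 3 : ℚ) : ℝ) := by
      exact_mod_cast h3
    push_cast at this
    exact this
  have h20' : (0 : ℝ) ≤ (((P n).coeff 2 : ℚ) : ℝ) := by exact_mod_cast h20
  have hn6' : (6 : ℝ) ≤ n := by exact_mod_cast hn6
  have goal : (((P n).coeff 2 : ℚ) : ℝ) ^ 2 <
      (((P n).coeff 1 : ℚ) : ℝ) * (((P n).coeff 3 : ℚ) : ℝ) := by
    rw [h1]
    have e1 : (((P n).coeff 2 : ℚ) : ℝ) ^ 2 ≤ 81 * (n : ℝ) ^ 2 := by nlinarith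
    have e2 : (n : ℝ) ^ 2 ≤ 2 * (((n : ℝ) - 1) * (n - 2)) := by nlinarith
    have e3 : 0 < ((n : ℝ) - 1) * (n - 2) / 12 := by
      have : 0 < (n : ℝ) - 1 := by linarith
      have : 0 < (n : ℝ) - 2 := by linarith
      positivity
    calc (((P n).coeff 2 : ℚ) : ℝ) ^ 2 ≤ 81 * (n : ℝ) ^ 2 := e1
      _ ≤ 1944 * (((n : ℝ) - 1) * (n - 2) / 12) := by linarith
      _ < s n * (((n : ℝ) - 1) * (n - 2) / 12) := mul_lt_mul_of_pos_right hs e3
      _ ≤ s n * (((P n).coeff 3 : ℚ) : ℝ) := mul_le_mul_of_nonneg_left h3' (by linarith)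
  exact_mod_cast goal

end

end Pool.Agent.X256.Arc
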