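import Pool.Agent.X256.Arc.Main

/-!
# Bounds for sums of `σ(k)/k`
-/

set_option autoImplicit false

namespace Pool.Agent.X256.Arc

open Finset

/-- `s k = ∑_{d ∣ k} 1/d = σ(k)/k` -/
noncomputable def s (k : ℕ) : ℝ := ∑ d ∈ k.divisors, 1 / (d : ℝ)

theorem sigma_div (k : ℕ) (hk : 1 ≤ k) :
    ((ArithmeticFunction.sigma 1 k : ℕ) : ℝ) / k = s k := by
  have hk0 : (k : ℝ) ≠ 0 := by positivity
  rw [ArithmeticFunction.sigma_one_apply, s, ← Nat.sum_div_divisors k (fun d => d)]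
  rw [Nat.cast_sum, Finset.sum_div]
  refine Finset.sum_congr rfl fun d hd => ?_
  have hdk := Nat.dvd_of_mem_divisors hd
  have hd0 : (d : ℝ) ≠ 0 := by
    have := Nat.pos_of_mem_divisors hd
    positivity
  rw [Nat.cast_div hdk hd0]
  field_simp

theorem sum_three_half (N : ℕ) (hN : 1 ≤ N) :
    ∑ d ∈ Ioc 0 N, 1 / ((d : ℝ) * Real.sqrt d) ≤ 3 - 2 / Real.sqrt N := by
  induction N, hN using Nat.le_induction with
  | base => norm_num
  | succ n hn ih =>
    rw [← Finset.insert_Ioc_right_eq_Ioc_add_one (by omega), Finset.sum_insert (by simp)]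
    have ha : 0 < Real.sqrt n := Real.sqrt_pos.mpr (by exact_mod_cast hn)
    have hb : 0 < Real.sqrt ((n + 1 : ℕ) : ℝ) := Real.sqrt_pos.mpr (by positivity)
    set a := Real.sqrt n with hadef
    set b := Real.sqrt ((n + 1 : ℕ) : ℝ) with hbdef
    have ha2 : a ^ 2 = n := Real.sq_sqrt (by positivity)
    have hb2 : b ^ 2 = ((n + 1 : ℕ) : ℝ) := Real.sq_sqrt (by positivity)
    have hab : b ^ 2 = a ^ 2 + 1 := by rw [ha2, hb2]; push_cast; ring
    have hle : a ≤ b := by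
      by_contra h
      push Not at h
      nlinarith
    have key : 1 / (((n + 1 : ℕ) : ℝ) * b) ≤ 2 / a - 2 / b := by
      rw [← hb2, div_sub_div _ _ ha.ne' hb.ne', div_le_div_iff₀ (by positivity) (by positivity)]
      have h1 : (b - a) * (b + a) = 1 := by nlinarith
      have h2 : a * (a + b) ≤ 2 * b ^ 2 := by nlinarith
      have h3 : a ≤ 2 * b ^ 2 * (b - a) := by
        have h4 : 0 < b + a := by positivity
        have h5 : a * (b + a) ≤ 2 * b ^ 2 * (b - a) * (b + a) := by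
          rw [mul_assoc (2 * b ^ 2), h1]; linarith
        exact le_of_mul_le_mul_right h5 h4
      have h6 : 0 < b := hb
      calc 1 * (a * b) = a * b := by ring
        _ ≤ (2 * b ^ 2 * (b - a)) * b := mul_le_mul_of_nonneg_right h3 h6.le
        _ = (2 * b - a * 2) * (b ^ 2 * b) := by ring
    linarith

theorem sum_three_half' (N : ℕ) :
    ∑ d ∈ Ioc 0 N, 1 / ((d : ℝ) * Real.sqrt d) ≤ 3 := by
  rcases Nat.eq_zero_or_pos N with h | h
  · subst h; simp
  · have h1 := sum_three_half N h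
    have h2 : 0 ≤ 2 / Real.sqrt N := by positivity
    linarith

theorem s_sq (k : ℕ) : s k ^ 2 ≤ 3 * ∑ d ∈ k.divisors, 1 / Real.sqrt d := by
  have h1 : s k ^ 2 ≤ (∑ d ∈ k.divisors, 1 / ((d : ℝ) * Real.sqrt d)) *
      ∑ d ∈ k.divisors, 1 / Real.sqrt d := by
    refine Finset.sum_sq_le_sum_mul_sum_of_sq_eq_mul _ (fun d _ => by positivity)
      (fun d _ => by positivity) (fun d hd => ?_)
    have hd0 : 0 < (d : ℝ) := by
      have := Nat.pos_of_mem_divisors hd
      positivity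
    have h2 : Real.sqrt d * Real.sqrt d = d := Real.mul_self_sqrt hd0.le
    rw [div_mul_div_comm, mul_assoc, h2, div_pow]
    ring
  have h2 : ∑ d ∈ k.divisors, 1 / ((d : ℝ) * Real.sqrt d) ≤ 3 := by
    refine le_trans ?_ (sum_three_half' k)
    refine Finset.sum_le_sum_of_subset_of_nonneg ?_ (fun d _ _ => by positivity)
    intro d hd
    rw [mem_Ioc]
    exact ⟨Nat.pos_of_mem_divisors hd, Nat.divisor_le hd⟩
  refine h1.trans (mul_le_mul_of_nonneg_right h2 ?_)
  exact Finset.sum_nonneg fun d _ => by positivity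

theorem sum_s_sq (n : ℕ) : ∑ k ∈ Ioc 0 n, s k ^ 2 ≤ 9 * n := by
  have h1 : ∑ k ∈ Ioc 0 n, s k ^ 2 ≤ ∑ k ∈ Ioc 0 n, 3 * ∑ d ∈ k.divisors, 1 / Real.sqrt d :=
    Finset.sum_le_sum fun k _ => s_sq k
  rw [← Finset.mul_sum] at h1
  have h2 : ∑ k ∈ Ioc 0 n, ∑ d ∈ k.divisors, 1 / Real.sqrt d =
      ∑ d ∈ Ioc 0 n, ((n / d : ℕ) : ℝ) * (1 / Real.sqrt d) := by
    have h3 : ∀ k ∈ Ioc 0 n, ∑ d ∈ k.divisors, 1 / Real.sqrt d =
        ∑ d ∈ Ioc 0 n, if d ∣ k then 1 / Real.sqrt d else 0 := by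
      intro k hk
      rw [mem_Ioc] at hk
      rw [← Finset.sum_filter]
      refine Finset.sum_congr ?_ fun _ _ => rfl
      ext d
      simp only [Nat.mem_divisors, mem_filter, mem_Ioc]
      constructor
      · rintro ⟨h, _⟩
        exact ⟨⟨Nat.pos_of_dvd_of_pos h hk.1, (Nat.le_of_dvd hk.1 h).trans hk.2⟩, h⟩
      · rintro ⟨_, h⟩
        exact ⟨h, by omega⟩
    rw [Finset.sum_congr rfl h3, Finset.sum_comm]
    refine Finset.sum_congr rfl fun d _ => ?_
    rw [← Finset.sum_filter, Finset.sum_const, Nat.Ioc_filter_dvd_card_eq_div, nsmul_eq_mul]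
  have h4 : ∑ d ∈ Ioc 0 n, ((n / d : ℕ) : ℝ) * (1 / Real.sqrt d) ≤ n * 3 := by
    refine le_trans ?_ (mul_le_mul_of_nonneg_left (sum_three_half' n) (by positivity))
    rw [Finset.mul_sum]
    refine Finset.sum_le_sum fun d hd => ?_
    rw [mem_Ioc] at hd
    have hd0 : 0 < (d : ℝ) := by exact_mod_cast hd.1
    have h5 : ((n / d : ℕ) : ℝ) ≤ (n : ℝ) / d := Nat.cast_div_le
    calc ((n / d : ℕ) : ℝ) * (1 / Real.sqrt d) ≤ ((n : ℝ) / d) * (1 / Real.sqrt d) :=
          mul_le_mul_of_nonneg_right h5 (by positivity)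
      _ = n * (1 / (d * Real.sqrt d)) := by
          rw [div_mul_div_comm]; ring
  rw [h2] at h1
  linarith

theorem s_factorial (N : ℕ) : ∑ i ∈ range N, 1 / ((i : ℝ) + 1) ≤ s (N.factorial) := by
  have h1 : ∑ i ∈ range N, 1 / ((i : ℝ) + 1) = ∑ d ∈ Ioc 0 N, 1 / (d : ℝ) := by
    refine Finset.sum_nbij' (fun k => k + 1) (fun k => k - 1) ?_ ?_ ?_ ?_ ?_
    · intro k hk; simp only [mem_range] at hk; simp only [mem_Ioc]; omega
    · intro k hk; simp only [mem_Ioc] at hk; simp only [mem_range]; omega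
    · intro k hk; simp
    · intro k hk; simp only [mem_Ioc] at hk; omega
    · intro k hk; push_cast; rfl
  rw [h1, s]
  refine Finset.sum_le_sum_of_subset_of_nonneg ?_ (fun d _ _ => by positivity)
  intro d hd
  rw [mem_Ioc] at hd
  rw [Nat.mem_divisors]
  exact ⟨Nat.dvd_factorial hd.1 hd.2, Nat.factorial_ne_zero N⟩

end Pool.Agent.X256.Arc
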