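import Mathlib

/-!
# The D'Arcais polynomials: log-concavity fails

`a_{n,1} = σ(n)/n` is unbounded, while `a_{n,2} = O(n)` and `a_{n,3} ≥ (n-1)(n-2)/12`.
-/

set_option autoImplicit false

namespace Pool.Agent.X256.Arc

open Polynomial Finset

/-- The D'Arcais polynomials. -/
noncomputable def PP : ℕ → Polynomial ℚ
  | 0 => 1
  | (n + 1) => C (1 / ((n : ℚ) + 1)) * (X * ∑ k : Fin (n + 1),
      ((ArithmeticFunction.sigma 1 (k.1 + 1) : ℕ) : Polynomial ℚ) * PP (n - k.1))
termination_by n => n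
decreasing_by omega

theorem PP_zero : PP 0 = 1 := by rw [PP]

theorem PP_rec (n : ℕ) (hn : 1 ≤ n) :
    (n : Polynomial ℚ) * PP n = X * ∑ k ∈ Icc 1 n,
      ((ArithmeticFunction.sigma 1 k : ℕ) : Polynomial ℚ) * PP (n - k) := by
  obtain ⟨m, rfl⟩ : ∃ m, n = m + 1 := ⟨n - 1, by omega⟩
  rw [PP]
  have h1 : ((m + 1 : ℕ) : Polynomial ℚ) * C (1 / ((m : ℚ) + 1)) = 1 := by
    have : ((m + 1 : ℕ) : Polynomial ℚ) = C ((m : ℚ) + 1) := by
      rw [map_add, map_one, Polynomial.C_eq_natCast]; push_cast; rfl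
    rw [this, ← C_mul]
    have h0 : ((m : ℚ) + 1) ≠ 0 := by positivity
    rw [mul_one_div_cancel h0, C_1]
  rw [← mul_assoc, h1, one_mul]
  congr 1
  rw [Finset.sum_fin_eq_sum_range]
  refine Finset.sum_nbij' (fun k => k + 1) (fun k => k - 1) ?_ ?_ ?_ ?_ ?_
  · intro k hk; simp only [mem_range] at hk; simp only [mem_Icc]; omega
  · intro k hk; simp only [mem_Icc] at hk; simp only [mem_range]; omega
  · intro k hk; simp
  · intro k hk; simp only [mem_Icc] at hk; omega
  · intro k hk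
    simp only [mem_range] at hk
    rw [dif_pos hk]
    have : m + 1 - (k + 1) = m - k := by omega
    rw [this]

section
variable (P : ℕ → Polynomial ℚ) (h0 : P 0 = 1)
  (hrec : ∀ n : ℕ, 1 ≤ n → (n : Polynomial ℚ) * P n = X * ∑ k ∈ Icc 1 n,
    ((ArithmeticFunction.sigma 1 k : ℕ) : Polynomial ℚ) * P (n - k))

include hrec

theorem coeff_rec (n j : ℕ) (hn : 1 ≤ n) :
    (n : ℚ) * (P n).coeff (j + 1) =
      ∑ k ∈ Icc 1 n, (ArithmeticFunction.sigma 1 k : ℚ) * (P (n - k)).coeff j := by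
  have h := congrArg (fun p => p.coeff (j + 1)) (hrec n hn)
  simp only [coeff_X_mul, finset_sum_coeff] at h
  rw [← Polynomial.C_eq_natCast, coeff_C_mul] at h
  rw [h]
  refine Finset.sum_congr rfl fun k _ => ?_
  rw [← Polynomial.C_eq_natCast, coeff_C_mul]

theorem coeff_zero_of_pos (n : ℕ) (hn : 1 ≤ n) : (P n).coeff 0 = 0 := by
  have h := congrArg (fun p => p.coeff 0) (hrec n hn)
  simp only [mul_coeff_zero, coeff_X_zero, zero_mul] at h
  rw [← Polynomial.C_eq_natCast, coeff_C_zero] at h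
  rcases mul_eq_zero.mp h with h | h
  · exfalso
    have : (n : ℚ) ≠ 0 := by positivity
    exact this h
  · exact h

include h0

theorem coeff_one (n : ℕ) (hn : 1 ≤ n) :
    (n : ℚ) * (P n).coeff 1 = (ArithmeticFunction.sigma 1 n : ℚ) := by
  rw [coeff_rec P hrec n 0 hn]
  rw [Finset.sum_eq_single n]
  · rw [Nat.sub_self, h0, coeff_one_zero, mul_one]
  · intro k hk hkn
    simp only [mem_Icc] at hk
    rw [coeff_zero_of_pos P hrec (n - k) (by omega), mul_zero]
  · intro h; simp only [mem_Icc] at h; omega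

theorem coeff_one' (n : ℕ) (hn : 1 ≤ n) :
    (P n).coeff 1 = (ArithmeticFunction.sigma 1 n : ℚ) / n := by
  have h := coeff_one P h0 hrec n hn
  have : (n : ℚ) ≠ 0 := by positivity
  field_simp
  linarith

end

end Pool.Agent.X256.Arc
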